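import Pool.Agent.Helper19_TFJ.Comp
import Pool.Agent.Helper65_TFJ.ORB
import Pool.Agent.Helper7_TFJ.PER
import Pool.Agent.Helper19_TFJ.GCP
import Pool.Agent.Helper19_TFJ.IDE

set_option autoImplicit false

/-!
# MP_bed68a_al: traces of idempotents over graded rings

Let `G` act by isometries, properly and coboundedly on an injective metric space (every
hierarchically hyperbolic group does, by a theorem of Haettel, Hoda and Petyt which is not part of
the Lean proof). Let `S` be any `G`-graded ring and `e` an idempotent matrix over `S`. Then the part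
of the trace of `e` in the conjugacy class of an element of infinite order lies in `N S + [S,S]` for
every `N >= 1`, and in `[S,S]` if `N S = 0` for some `N >= 1`.
-/

namespace Pool.Agent.Results.MP_bed68a_al.GradedTrace

open Pool.Agent.TFJ

open scoped BigOperators

theorem nkl_all : NklStmt := Pool.Agent.TFJ.H19.nkl Pool.Agent.TFJ.H23.rot
  Pool.Agent.TFJ.H65.orb Pool.Agent.TFJ.H7.per

theorem fin_all : FinStmt :=
  Pool.Agent.TFJ.H19.fin
    (Pool.Agent.TFJ.H19.ide Pool.Agent.TFJ.H89.exw nkl_all Pool.Agent.TFJ.H19.gcp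
      Pool.Agent.TFJ.H45.wpm)
    Pool.Agent.TFJ.H50.crn Pool.Agent.TFJ.H49.mat Pool.Agent.TFJ.H19.gcp

theorem result :
    ∀ (G E : Type) [Group G] [MetricSpace E] [MulAction G E], InjAction G E →
      ∀ (S : Type) [Ring S] (A : G → AddSubgroup S), Graded A →
        ∀ (n : ℕ) (e : Matrix (Fin n) (Fin n) S) (c : G →₀ S) (g₀ : G), e * e = e →
          (∀ g, c g ∈ A g) → (c.sum fun _ z => z) = Matrix.trace e →
          (∀ k : ℕ, 1 ≤ k → g₀ ^ k ≠ 1) →
            (∀ N : ℕ, 1 ≤ N → DivBy S N (clPart g₀ c)) ∧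
              ∀ N : ℕ, 1 ≤ N → (N : S) = 0 → clPart g₀ c ∈ Comm S := by
  intro G E _ _ _ hGE S _ A hA n e c g₀ he hc hs hg
  exact Pool.Agent.TFJ.H19.graded_of fin_all hGE hA n e c g₀ he hc hs hg

end Pool.Agent.Results.MP_bed68a_al.GradedTrace
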