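import Pool.Agent.Results.MP_bed68a_al.GradedTrace
import Pool.Agent.Helper3_TFJ.TWA

set_option autoImplicit false

/-!
# MP_bed68a_al: traces of idempotents over twisted group algebras

Let `G` be a finitely presented group which acts by isometries, properly and coboundedly on an
injective metric space, `F` a field, and `S` a twisted group algebra of `G` over `F` with an arbitrary
cocycle. Then the part of the trace of an idempotent matrix over `S` in the conjugacy class of an
element of infinite order is a sum of additive commutators.
-/

namespace Pool.Agent.Results.MP_bed68a_al.TwistedTrace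

open Pool.Agent.TFJ

open scoped BigOperators

theorem result :
    ∀ (G E : Type) [Group G] [Group.IsFinitelyPresented G] [MetricSpace E] [MulAction G E],
      InjAction G E →
      ∀ (F S : Type) [Field F] [Ring S] [Algebra F S] (α : G → G → Fˣ) (u : G → S),
        Twisted α u →
        ∀ (n : ℕ) (e : Matrix (Fin n) (Fin n) S) (a : G →₀ F) (g₀ : G), e * e = e →
          Matrix.trace e = (a.sum fun h y => y • u h) → (∀ k : ℕ, 1 ≤ k → g₀ ^ k ≠ 1) →
            open Classical in
            ∑ h ∈ a.support.filter (fun h => IsConj g₀ h), a h • u h ∈ Comm S := by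
  intro G E _ _ _ _ hGE F S _ _ _ α u hT n e a g₀ he hs hg
  exact Pool.Agent.TFJ.H19.twisted_of Pool.Agent.Results.MP_bed68a_al.GradedTrace.fin_all
    (Pool.Agent.TFJ.H92.twc Pool.Agent.Results.MP_bed68a_al.GradedTrace.fin_all
      Pool.Agent.TFJ.H80.div Pool.Agent.TFJ.H1.twb Pool.Agent.TFJ.H3.twa)
    hGE hT n e a g₀ he hs hg

end Pool.Agent.Results.MP_bed68a_al.TwistedTrace
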